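import Mathlib
import Pool.Agent.Q209.SQLSpace

/-!
MP_a1e9e0_gt, Q1: a strict quasi-Lindelöf space `X` with `pwL_c(X) > ℵ₀` (a `T₁` space, in ZFC).
-/

set_option autoImplicit false

namespace Pool.Agent.Results.MP_a1e9e0_gt.StrictQLBigPwL

open Cardinal Q209.SQL

/-- There is a strict quasi-Lindelöf space with uncountable piecewise weak Lindelöf degree for
closed sets. -/
theorem result : ∃ (X : Type) (_ : TopologicalSpace X),
    T1Space X ∧ StrictQuasiLindelof X ∧ ℵ₀ < pwLc X :=
  ⟨X, inferInstance, inferInstance, strictQuasiLindelof, aleph0_lt_pwLc⟩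

end Pool.Agent.Results.MP_a1e9e0_gt.StrictQLBigPwL
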